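import Mathlib
import Pool.Agent.X90.DA.Zeta

/-!
# Relations between `ζ(3)`, arbitrary further constants and values of Dirichlet series

Let `x_1, …, x_t` be arbitrary complex numbers, for instance `ζ(3)`, or `ζ(3), γ, π, e`, or the periods of a motive, and
let `F_1, …, F_k` be arbitrary Dirichlet series, absolutely convergent somewhere and not constant: the Riemann zeta
function, `L`-functions, polylogarithms `∑ α ^ n n ^ (-s)`. For almost all `k`-tuples of integers `s_1, …, s_k ≤ N`, all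
the polynomial relations `P(x_1, …, x_t, F_1(s_1), …, F_k(s_k)) = 0` of bounded degree and of height up to `e ^ (c N)` are
trivial: they are relations between `x_1, …, x_t` only. In particular, `ζ(3)` is transcendental if and only if, for every
degree, the relations of height up to `e ^ (c N)` between `ζ(3)` and `ζ(s_1), …, ζ(s_k)` exist for a small proportion of the
tuples `s_1, …, s_k ≤ N` only.

Proof (`Pool/Agent/X90/DA`): for integer coefficients (no constants `x`) one term of the polynomial in the numbers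
`F_i(s_i) - F_i(∞)`, exponentially small in `s_i`, dominates away from few hyperplanes. Then the constants are eliminated
one by one: from relations at two tuples `s, s'` one obtains a relation at the `2 k`-tuple `(s, s')` with one constant
less, unless the relation at `s` is a multiple of one with integer coefficients.
-/

set_option autoImplicit false

namespace Pool.Agent.Results.MP_48b3e2_nt.ArbitraryConstants

open Finset

/-- the value at `s` of the Dirichlet series in which `(n + 1) ^ (-s)` has the coefficient `a n` -/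
noncomputable def value (a : ℕ → ℂ) (s : ℕ) : ℂ := ∑' n : ℕ, a n / ((n : ℂ) + 1) ^ s

/-- `ζ(s)` -/
noncomputable def zeta (s : ℕ) : ℂ := value (fun _ => 1) s

/-- the polynomial `P(x_1, …, x_t, Y_1, …, Y_k)` in `Y_1, …, Y_k` -/
noncomputable def substX {t k : ℕ} (x : Fin t → ℂ) (P : MvPolynomial (Fin t ⊕ Fin k) ℤ) :
    MvPolynomial (Fin k) ℂ :=
  MvPolynomial.aeval (Sum.elim (fun j => MvPolynomial.C (x j)) MvPolynomial.X) P

theorem part_one (t k D : ℕ) (x : Fin t → ℂ) (a : Fin k → ℕ → ℂ) (σ : ℕ) (hσ1 : 1 ≤ σ)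
    (hσ : ∀ i, Summable fun n : ℕ => ‖a i n‖ / ((n : ℝ) + 1) ^ σ)
    (ha : ∀ i, ∃ n, 1 ≤ n ∧ a i n ≠ 0) :
    ∃ A : ℝ, 0 < A ∧ ∀ (N : ℕ) (h : ℝ), 1 ≤ h →
      (Set.ncard {s : Fin k → ℕ | (∀ i, σ ≤ s i ∧ s i ≤ N) ∧
        ∃ P : MvPolynomial (Fin t ⊕ Fin k) ℤ, P.totalDegree ≤ D ∧
          (∀ m, |((P.coeff m : ℤ) : ℝ)| ≤ Real.exp h) ∧ substX x P ≠ 0 ∧
          MvPolynomial.aeval (Sum.elim x fun i => value (a i) (s i)) P = 0} : ℝ) ≤
        A * (h / N) ^ ((1 / 2 : ℝ) ^ ((D + 1) ^ (t + k))) * (N : ℝ) ^ k := by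
  obtain ⟨A, hA, h1⟩ := Pool.Agent.X90.DA.count_dser t k D x a σ hσ ha
  refine ⟨A, hA, fun N h hh => le_trans ?_ (h1 N h hh)⟩
  have hfin : Set.Finite (Pool.Agent.X90.DA.Exc D x
      (fun i s => Pool.Agent.X90.DA.dval (a i) s) 1 N h) := by
    refine Set.Finite.subset (Finset.finite_toSet (Pool.Agent.X90.DA.box (Fin k) 1 N)) fun s hs => ?_
    rw [mem_coe, Pool.Agent.X90.DA.mem_box]
    exact hs.1
  have h2 := Set.ncard_le_ncard (s := {s : Fin k → ℕ | (∀ i, σ ≤ s i ∧ s i ≤ N) ∧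
        ∃ P : MvPolynomial (Fin t ⊕ Fin k) ℤ, P.totalDegree ≤ D ∧
          (∀ m, |((P.coeff m : ℤ) : ℝ)| ≤ Real.exp h) ∧ substX x P ≠ 0 ∧
          MvPolynomial.aeval (Sum.elim x fun i => value (a i) (s i)) P = 0}) (by
    rintro s ⟨hs, P, hP1, hP2, hP3, hP4⟩
    exact ⟨fun i => ⟨hσ1.trans (hs i).1, (hs i).2⟩, P, hP1, hP2, hP3, hP4⟩) hfin
  exact_mod_cast h2

theorem part_two (k : ℕ) : Transcendental ℤ (zeta 3) ↔
    ∀ (D : ℕ) (ε : ℝ), 0 < ε → ∃ c : ℝ, 0 < c ∧ ∃ N0 : ℕ, ∀ N : ℕ, N0 ≤ N →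
      (Set.ncard {s : Fin k → ℕ | (∀ i, 2 ≤ s i ∧ s i ≤ N) ∧
        ∃ P : MvPolynomial (Fin 1 ⊕ Fin k) ℤ, P ≠ 0 ∧ P.totalDegree ≤ D ∧
          (∀ m, |((P.coeff m : ℤ) : ℝ)| ≤ Real.exp (c * N)) ∧
          MvPolynomial.aeval (Sum.elim (fun _ => zeta 3) fun i => zeta (s i)) P = 0} : ℝ) ≤
        ε * (N : ℝ) ^ k := by
  constructor
  · intro htr D ε hε
    obtain ⟨A, hA, h1⟩ := part_one 1 k D (fun _ => zeta 3) (fun _ _ => 1) 2 (by norm_num) (fun _ => by
      have h2 := (summable_nat_add_iff 1).2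
        (Real.summable_one_div_nat_pow.2 (show 1 < 2 by norm_num))
      simpa using h2) (fun _ => ⟨1, le_rfl, one_ne_zero⟩)
    set κ : ℝ := (1 / 2 : ℝ) ^ ((D + 1) ^ (1 + k)) with hκ
    have hκ0 : 0 < κ := by positivity
    obtain ⟨c, hc, hcA⟩ : ∃ c : ℝ, 0 < c ∧ A * c ^ κ ≤ ε := by
      refine ⟨(ε / A) ^ κ⁻¹, by positivity, ?_⟩
      rw [← Real.rpow_mul (by positivity), inv_mul_cancel₀ hκ0.ne', Real.rpow_one]
      field_simp
      exact le_rfl
    refine ⟨c, hc, ⌈1 / c⌉₊ + 1, fun N hN => ?_⟩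
    have hN' : 1 / c ≤ N := (Nat.le_ceil _).trans (by exact_mod_cast (by omega : ⌈1 / c⌉₊ ≤ N))
    have hN0 : (0 : ℝ) < N := by exact_mod_cast (by omega : 0 < N)
    have hcN : 1 ≤ c * N := by
      rw [div_le_iff₀ hc] at hN'
      linarith
    have h3 := h1 N (c * N) hcN
    have h4 : c * N / N = c := by field_simp
    rw [h4] at h3
    have hfin : Set.Finite {s : Fin k → ℕ | (∀ i, 2 ≤ s i ∧ s i ≤ N) ∧
        ∃ P : MvPolynomial (Fin 1 ⊕ Fin k) ℤ, P.totalDegree ≤ D ∧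
          (∀ m, |((P.coeff m : ℤ) : ℝ)| ≤ Real.exp (c * N)) ∧ substX (fun _ => zeta 3) P ≠ 0 ∧
          MvPolynomial.aeval (Sum.elim (fun _ => zeta 3) fun i => value (fun _ => 1) (s i)) P = 0} := by
      refine Set.Finite.subset (Finset.finite_toSet (Pool.Agent.X90.DA.box (Fin k) 2 N))
        fun s hs => ?_
      rw [mem_coe, Pool.Agent.X90.DA.mem_box]
      exact hs.1
    have h5 := Set.ncard_le_ncard (s := {s : Fin k → ℕ | (∀ i, 2 ≤ s i ∧ s i ≤ N) ∧
        ∃ P : MvPolynomial (Fin 1 ⊕ Fin k) ℤ, P ≠ 0 ∧ P.totalDegree ≤ D ∧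
          (∀ m, |((P.coeff m : ℤ) : ℝ)| ≤ Real.exp (c * N)) ∧
          MvPolynomial.aeval (Sum.elim (fun _ => zeta 3) fun i => zeta (s i)) P = 0}) (by
      rintro s ⟨hs, P, hP0, hP1, hP2, hP3⟩
      exact ⟨hs, P, hP1, hP2, Pool.Agent.X90.DA.subst_ne htr hP1 hP0, hP3⟩) hfin
    have h6 := (Nat.cast_le (α := ℝ)).2 h5
    refine h6.trans (h3.trans ?_)
    exact mul_le_mul_of_nonneg_right hcA (by positivity)
  · intro hall
    by_contra halg
    rw [Transcendental, not_not] at halg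
    obtain ⟨p, hp0, hp⟩ := halg
    -- the relation in the first variable
    set P : MvPolynomial (Fin 1 ⊕ Fin k) ℤ := Polynomial.aeval (MvPolynomial.X (Sum.inl 0)) p with hP
    have hinj : Function.Injective (Polynomial.aeval (R := ℤ)
        (MvPolynomial.X (Sum.inl 0) : MvPolynomial (Fin 1 ⊕ Fin k) ℤ)) := by
      have := MvPolynomial.transcendental_X (σ := Fin 1 ⊕ Fin k) ℤ (Sum.inl 0)
      exact transcendental_iff_injective.1 this
    have hPne : P ≠ 0 := by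
      rw [hP]
      intro h0
      apply hp0
      exact hinj (by rw [h0, map_zero])
    obtain ⟨c, hc, N0, hN0⟩ := hall P.totalDegree ((1 / 2 : ℝ) ^ (k + 1)) (by positivity)
    obtain ⟨H, hH⟩ : ∃ H : ℝ, ∀ m, |((P.coeff m : ℤ) : ℝ)| ≤ H := by
      refine ⟨∑ m ∈ P.support, |((P.coeff m : ℤ) : ℝ)|, fun m => ?_⟩
      by_cases hm : m ∈ P.support
      · exact single_le_sum (f := fun m => |((P.coeff m : ℤ) : ℝ)|) (fun _ _ => abs_nonneg _) hm
      · rw [MvPolynomial.notMem_support_iff.1 hm, Int.cast_zero, abs_zero]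
        exact sum_nonneg fun _ _ => abs_nonneg _
    obtain ⟨N1, hN1⟩ : ∃ N1 : ℕ, H ≤ c * N1 := by
      obtain ⟨n, hn⟩ := exists_nat_ge (H / c)
      refine ⟨n, ?_⟩
      rw [div_le_iff₀ hc] at hn
      linarith
    set N : ℕ := N0 + N1 + 2 with hN
    have hHN : H ≤ Real.exp (c * N) := by
      have h1 : (N1 : ℝ) ≤ N := by exact_mod_cast (by omega : N1 ≤ N)
      have h2 := Real.add_one_le_exp (c * N)
      nlinarith
    have h1 := hN0 N (by omega)
    have h2 : {s : Fin k → ℕ | (∀ i, 2 ≤ s i ∧ s i ≤ N) ∧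
        ∃ P' : MvPolynomial (Fin 1 ⊕ Fin k) ℤ, P' ≠ 0 ∧ P'.totalDegree ≤ P.totalDegree ∧
          (∀ m, |((P'.coeff m : ℤ) : ℝ)| ≤ Real.exp (c * N)) ∧
          MvPolynomial.aeval (Sum.elim (fun _ => zeta 3) fun i => zeta (s i)) P' = 0} =
        ((Fintype.piFinset fun _ : Fin k => Finset.Icc 2 N : Finset (Fin k → ℕ)) :
          Set (Fin k → ℕ)) := by
      ext s
      rw [mem_coe, Fintype.mem_piFinset]
      constructor
      · rintro ⟨hs, -⟩
        exact fun i => mem_Icc.2 (hs i)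
      · intro hs
        refine ⟨fun i => mem_Icc.1 (hs i), P, hPne, le_rfl, fun m => (hH m).trans hHN, ?_⟩
        have h3 : MvPolynomial.aeval (Sum.elim (fun _ => zeta 3) fun i => zeta (s i)) P =
            Polynomial.aeval (zeta 3) p := by
          rw [hP, ← Polynomial.aeval_algHom_apply, MvPolynomial.aeval_X]
          rfl
        rw [h3]
        exact hp
    rw [h2, Set.ncard_coe_finset, Fintype.card_piFinset, prod_const, card_univ, Fintype.card_fin,
      Nat.card_Icc] at h1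
    have h4 : (N : ℝ) / 2 ≤ ((N + 1 - 2 : ℕ) : ℝ) := by
      have h5 : ((N + 1 - 2 : ℕ) : ℝ) = (N : ℝ) - 1 := by
        have h6 : N + 1 - 2 + 1 = N := by omega
        have h7 : ((N + 1 - 2 : ℕ) : ℝ) + 1 = N := by exact_mod_cast h6
        linarith
      have h8 : (2 : ℝ) ≤ N := by exact_mod_cast (by omega : 2 ≤ N)
      rw [h5]
      linarith
    have h5 : ((N : ℝ) / 2) ^ k ≤ ((N + 1 - 2 : ℕ) : ℝ) ^ k := pow_le_pow_left₀ (by positivity) h4 _
    rw [Nat.cast_pow] at h1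
    have h6 : (0 : ℝ) < (N : ℝ) ^ k := by
      have : (0 : ℝ) < N := by exact_mod_cast (by omega : 0 < N)
      positivity
    have h7 : ((N : ℝ) / 2) ^ k = (1 / 2 : ℝ) ^ k * (N : ℝ) ^ k := by
      rw [div_pow, div_eq_mul_inv, one_div, inv_pow]
      ring
    rw [h7] at h5
    have h8 : (1 / 2 : ℝ) ^ (k + 1) * (N : ℝ) ^ k < (1 / 2 : ℝ) ^ k * (N : ℝ) ^ k := by
      refine mul_lt_mul_of_pos_right ?_ h6
      rw [pow_succ]
      have : (0 : ℝ) < (1 / 2 : ℝ) ^ k := by positivity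
      linarith
    linarith

/-- (1) Let `x_1, …, x_t` be complex numbers, `F_i(s) = ∑ a_i(n) (n + 1) ^ (-s)`, `i ≤ k`, Dirichlet series, absolutely
convergent at the integer `σ ≥ 1` and not constant, and `D` a natural number. There is `A > 0` such that for all `N` and
all real `h ≥ 1` at most `A (h / N) ^ κ N ^ k`, `κ = 2 ^ (-(D + 1) ^ (t + k))`, of the `k`-tuples of integers
`σ ≤ s_i ≤ N` have an integer polynomial `P` in `t + k` variables, of total degree at most `D` and with coefficients at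
most `e ^ h`, such that `P(x_1, …, x_t, F_1(s_1), …, F_k(s_k)) = 0` and the polynomial `P(x_1, …, x_t, Y_1, …, Y_k)` in
`Y_1, …, Y_k` is not zero.
(2) For every `k`, `ζ(3)` is transcendental if and only if for every `D` and `ε > 0` there are `c > 0` and `N0` such that
for all `N ≥ N0` at most `ε N ^ k` of the `k`-tuples of integers `2 ≤ s_i ≤ N` have an integer polynomial `P ≠ 0` in
`k + 1` variables, of degree at most `D` and with coefficients at most `e ^ (c N)`, such that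
`P(ζ(3), ζ(s_1), …, ζ(s_k)) = 0`. -/
theorem result :
    (∀ (t k D : ℕ) (x : Fin t → ℂ) (a : Fin k → ℕ → ℂ) (σ : ℕ), 1 ≤ σ →
      (∀ i, Summable fun n : ℕ => ‖a i n‖ / ((n : ℝ) + 1) ^ σ) →
      (∀ i, ∃ n, 1 ≤ n ∧ a i n ≠ 0) →
      ∃ A : ℝ, 0 < A ∧ ∀ (N : ℕ) (h : ℝ), 1 ≤ h →
        (Set.ncard {s : Fin k → ℕ | (∀ i, σ ≤ s i ∧ s i ≤ N) ∧
          ∃ P : MvPolynomial (Fin t ⊕ Fin k) ℤ, P.totalDegree ≤ D ∧
            (∀ m, |((P.coeff m : ℤ) : ℝ)| ≤ Real.exp h) ∧ substX x P ≠ 0 ∧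
            MvPolynomial.aeval (Sum.elim x fun i => value (a i) (s i)) P = 0} : ℝ) ≤
          A * (h / N) ^ ((1 / 2 : ℝ) ^ ((D + 1) ^ (t + k))) * (N : ℝ) ^ k) ∧
    (∀ k : ℕ, Transcendental ℤ (zeta 3) ↔
      ∀ (D : ℕ) (ε : ℝ), 0 < ε → ∃ c : ℝ, 0 < c ∧ ∃ N0 : ℕ, ∀ N : ℕ, N0 ≤ N →
        (Set.ncard {s : Fin k → ℕ | (∀ i, 2 ≤ s i ∧ s i ≤ N) ∧
          ∃ P : MvPolynomial (Fin 1 ⊕ Fin k) ℤ, P ≠ 0 ∧ P.totalDegree ≤ D ∧
            (∀ m, |((P.coeff m : ℤ) : ℝ)| ≤ Real.exp (c * N)) ∧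
            MvPolynomial.aeval (Sum.elim (fun _ => zeta 3) fun i => zeta (s i)) P = 0} : ℝ) ≤
          ε * (N : ℝ) ^ k) :=
  ⟨fun t k D x a σ hσ1 hσ ha => part_one t k D x a σ hσ1 hσ ha, part_two⟩

end Pool.Agent.Results.MP_48b3e2_nt.ArbitraryConstants
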