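import Mathlib
import Pool.Agent.X142.ZG.Count
import Pool.Agent.X142.ZG.Zeta3

/-!
# The number of near relations between `1`, `ζ(3)` and a third number

For `2 < w < 8.36` there are `O(X ^ ((8.36 - w) / 4.68))` primitive integer vectors `(a, b, c)`, `c > 0`, of height
`≤ X` with `|a + b ζ(3) + c t| ≤ height ^ (-w)`, uniformly in the real number `t`, for instance
`t = ζ(3) ^ k`.
-/

set_option autoImplicit false

namespace Pool.Agent.Results.MP_48b3e2_nt.NearRelationCount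

/-- `ζ(3)` -/
noncomputable def zeta3 : ℝ := ∑' n : ℕ, 1 / ((n : ℝ) + 1) ^ 3

/-- The height `max (|a|, |b|, |c|)` of `v = (a, b, c)`. -/
def height (v : ℤ × ℤ × ℤ) : ℕ := max v.1.natAbs (max v.2.1.natAbs v.2.2.natAbs)

/-- No common divisor of `a, b, c`. -/
def Primitive (v : ℤ × ℤ × ℤ) : Prop := ∀ d : ℤ, d ∣ v.1 → d ∣ v.2.1 → d ∣ v.2.2 → IsUnit d

/-- The value `a + b ζ(3) + c t`. -/
noncomputable def form (t : ℝ) (v : ℤ × ℤ × ℤ) : ℝ := v.1 + v.2.1 * zeta3 + v.2.2 * t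

/-- The near relations of exponent `w`. -/
def Near (t w : ℝ) : Set (ℤ × ℤ × ℤ) :=
  {v | Primitive v ∧ 0 < v.2.2 ∧ |form t v| ≤ (height v : ℝ) ^ (-w)}

/-- **The number of near relations**, uniformly in the real number `t`. -/
theorem result (w : ℝ) (hw : 2 < w) (hw' : w < 8.36) :
    ∃ C : ℝ, 0 < C ∧ ∀ t X : ℝ, 1 ≤ X → {v ∈ Near t w | (height v : ℝ) ≤ X}.Finite ∧
      ({v ∈ Near t w | (height v : ℝ) ≤ X}.ncard : ℝ) ≤ C * X ^ ((8.36 - w) / 4.68) := by
  obtain ⟨C, hC, h⟩ := Pool.Agent.X142.ZG.total zeta3 (368 / 100) w (by norm_num)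
    Pool.Agent.X142.ZG.meas_zeta3 hw (by norm_num at hw' ⊢; linarith)
  refine ⟨C, hC, fun t X hX => ?_⟩
  have e : (1 + 2 * (368 / 100) - w) / (1 + 368 / 100) = (8.36 - w) / 4.68 := by norm_num
  have h1 := h t X hX
  rw [e] at h1
  exact h1

end Pool.Agent.Results.MP_48b3e2_nt.NearRelationCount
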