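import Mathlib
import Pool.Agent.X90.MZ.Fam2

/-!
# `ζ(3)`, `π` and multiple zeta values of large arguments

For patterns `w_1, …, w_k`, for example `(n, n)`, `(2 n + 1, 3, 1)`, `(n, 2, n + 5)`, we consider the multiple zeta values
`ζ(w_1(n)), …, ζ(w_k(n))` together with `ζ(3)` and `π`. Unconditionally, for all large `n`, the polynomial relations of
bounded degree and of height at most `C ^ n` between them are consequences of the series product (stuffle product) of
multiple zeta values only: (1) for the relations `∑ β_j P_j(π, ζ(w_1(n)), …, ζ(w_k(n))) = 0` of arbitrary degree in `π`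
with coefficients in the lattice spanned by algebraic numbers `β_j`; (2) for the relations
`P_0 + π ^ 2 P_1 + ζ(3) P_2 = 0` whose coefficients `P_0, P_1, P_2` are integer polynomials in `ζ(w_1(n)), …, ζ(w_k(n))`.
The same holds for approximate relations, up to `B ^ (-n)`. The relations then hold in all commutative rings with a family
that has the stuffle product (and, in (1), with an arbitrary element in place of `π`).

The results of the starting library on multiple zeta values with large arguments have algebraic coefficients (and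
arbitrary `C`), without `π` and `ζ(3)`; here the powers of `π` and `ζ(3)` are new. The proof uses a measure of linear
independence for the numbers `β_j π ^ i` (`Pool/Agent/X90/MZ/Alg3.lean`) and for `1, π ^ 2, ζ(3)`
(`Pool/Agent/TH647/NR/Zeta.lean`, helper647), the method of `Pool/Agent/Y760/PZ/Core.lean` (helper760) and the
linear independence of the coefficient functions of the Dirichlet series (`Pool/Agent/TH507/WG`, helper507).
-/

set_option autoImplicit false

namespace Pool.Agent.Results.MP_48b3e2_nt.PiAndMultipleZetaValues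

/-- `trunc [s_1, ..., s_r] m` is the sum of `∏ k_i ^ (-s_i)` over `m > k_1 > ... > k_r ≥ 1` -/
noncomputable def trunc : List ℕ → ℕ → ℝ
  | [], _ => 1
  | s :: l, m => ∑ j ∈ Finset.Ico 1 m, trunc l j / (j : ℝ) ^ s

/-- the multiple zeta value `ζ(s_1, ..., s_r)`, `s_1` belongs to the largest variable -/
noncomputable def mzv : List ℕ → ℝ
  | [] => 1
  | s :: l => ∑' k : ℕ, trunc l (k + 1) / ((k + 1 : ℕ) : ℝ) ^ s

/-- patterns `[(a_1, b_1), ..., (a_r, b_r)]` with `r ≥ 1`, `a_1 ≥ 1` and no entry `(0, 0)` -/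
def Pattern : List (ℕ × ℕ) → Prop
  | [] => False
  | x :: l => 1 ≤ x.1 ∧ ∀ y ∈ l, y ≠ (0, 0)

/-- the index `(a_1 n + b_1, ..., a_r n + b_r)` -/
def args (n : ℕ) (w : List (ℕ × ℕ)) : List ℕ := w.map fun x => x.1 * n + x.2

/-- admissible indices: `(s_1, ..., s_r)` with `r ≥ 1`, `s_1 ≥ 2` and all `s_i ≥ 1` -/
def AdmissibleIndex : List ℕ → Prop
  | [] => False
  | s :: l => 2 ≤ s ∧ ∀ t ∈ l, 1 ≤ t

/-- the list of the indices in the stuffle (series) product of two indices -/
def stuffles : List ℕ → List ℕ → List (List ℕ)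
  | [], l => [l]
  | i :: k, [] => [i :: k]
  | i :: k, j :: l => (stuffles k (j :: l)).map (i :: ·) ++ (stuffles (i :: k) l).map (j :: ·) ++
      (stuffles k l).map ((i + j) :: ·)
termination_by k l => k.length + l.length

/-- `Z` has the stuffle product: `Z(k) Z(l) = ∑ Z(m)` over the indices `m` of the stuffle product
of `k` and `l`, for all admissible indices `k` and `l` -/
def HasStuffleProduct {A : Type} [CommRing A] (Z : List ℕ → A) : Prop :=
  ∀ k l : List ℕ, AdmissibleIndex k → AdmissibleIndex l →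
    Z k * Z l = ((stuffles k l).map Z).sum

/-- the point `(x, Z(w_1(n)), …, Z(w_k(n)))`; the coordinate `none` is `x` -/
def point {A : Type} {k : ℕ} (x : A) (Z : List ℕ → A) (n : ℕ) (w : Fin k → List (ℕ × ℕ)) :
    Option (Fin k) → A := fun o => o.elim x fun i => Z (args n (w i))

theorem trunc_eq : ∀ l m, trunc l m = Pool.Agent.TH507.WD.hr l m := by
  intro l
  induction l with
  | nil => intro m; rw [trunc, Pool.Agent.TH507.WD.hr]
  | cons s l ih =>
    intro m
    rw [trunc, Pool.Agent.TH507.WD.hr]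
    exact Finset.sum_congr rfl fun j _ => by rw [ih]

theorem mzv_eq : ∀ l, mzv l = Pool.Agent.TH507.WD.mz l := by
  intro l
  cases l with
  | nil => rw [mzv, Pool.Agent.TH507.WD.mz]
  | cons s l =>
    rw [mzv, Pool.Agent.TH507.WD.mz]
    exact tsum_congr fun k => by rw [trunc_eq]

theorem stuffles_eq : ∀ u v, stuffles u v = Pool.Agent.X90.MZ.sti u v := by
  intro u v
  induction u, v using Pool.Agent.X90.MZ.sti.induct with
  | case1 v => rw [stuffles, Pool.Agent.X90.MZ.sti]
  | case2 x u => rw [stuffles, Pool.Agent.X90.MZ.sti]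
  | case3 x u y v ih1 ih2 ih3 => rw [stuffles, Pool.Agent.X90.MZ.sti, ih1, ih2, ih3]

theorem adm_iff : ∀ u, AdmissibleIndex u ↔ Pool.Agent.X90.MZ.Ad u := by
  intro u
  cases u <;> exact Iff.rfl

theorem pattern_ok : ∀ v, Pattern v → v ≠ [] ∧ Pool.Agent.TH507.WG.HP v ∧
    Pool.Agent.TH507.WG.OK v := by
  intro v hv
  cases v with
  | nil => exact hv.elim
  | cons x l =>
    refine ⟨List.cons_ne_nil _ _, hv.1, fun y hy hy1 => ?_⟩
    rcases List.mem_cons.1 hy with rfl | hy
    · have h13 := hv.1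
      omega
    · have h13 := hv.2 y hy
      by_contra h14
      exact h13 (Prod.ext hy1 (by show y.2 = 0; omega))

/-- **`π` and multiple zeta values**, first part: Let `β_1, …, β_l` be real algebraic numbers, linearly independent over `ℚ`, let
`w_1, …, w_k` be patterns and `D` a natural number. There are `B, C > 1` and `n0` such that for all `n ≥ n0` and all
integer polynomials `P_1, …, P_l` in `k + 1` variables of total degree at most `D` with coefficients of absolute value at
most `C ^ n`: if `|∑ β_j P_j(π, ζ(w_1(n)), …, ζ(w_k(n)))| ≤ B ^ (-n)`, then for all `j`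
`P_j(π, ζ(w_1(n)), …, ζ(w_k(n))) = 0`, and `P_j(x, Z(w_1(n)), …, Z(w_k(n))) = 0` for all commutative rings `A`, all
`x ∈ A` and all functions `Z` from the indices to `A` that have the stuffle product. -/
theorem part_pi {l : ℕ} (β : Fin l → ℝ) (hβ : ∀ j, IsAlgebraic ℚ (β j))
    (hli : LinearIndependent ℚ β) (k D : ℕ) (w : Fin k → List (ℕ × ℕ)) (hw : ∀ i, Pattern (w i)) :
    ∃ B C : ℝ, 1 < B ∧ 1 < C ∧ ∃ n0 : ℕ, ∀ n : ℕ, n0 ≤ n →
      ∀ P : Fin l → MvPolynomial (Option (Fin k)) ℤ, (∀ j, (P j).totalDegree ≤ D) →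
      (∀ j e, |(((P j).coeff e : ℤ) : ℝ)| ≤ C ^ n) →
      |∑ j, β j * MvPolynomial.aeval (point Real.pi mzv n w) (P j)| ≤ (B ^ n)⁻¹ →
      ∀ j, MvPolynomial.aeval (point Real.pi mzv n w) (P j) = 0 ∧
        ∀ (A : Type) [CommRing A] (x : A) (Z : List ℕ → A), HasStuffleProduct Z →
          MvPolynomial.aeval (point x Z n w) (P j) = 0 := by
  have h2 := mzv_eq
  have h3 := stuffles_eq
  have h4 := adm_iff
  have hpat := pattern_ok
  obtain ⟨B, C, hB, hC, n0, h⟩ := Pool.Agent.X90.MZ.fam_main β hβ hli k D w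
    (fun i => (hpat _ (hw i)).2)
  have hpt : ∀ n, point Real.pi mzv n w = fun o : Option (Fin k) => o.elim Real.pi
      fun i => Pool.Agent.TH507.WD.mz (Pool.Agent.TH507.WG.ar n (w i)) := by
    intro n
    funext o
    cases o with
    | none => rfl
    | some i => exact h2 _
  refine ⟨B, C, hB, hC, n0, fun n hn P hPd hPC hsmall => ?_⟩
  simp only [hpt] at hsmall ⊢
  intro j
  obtain ⟨g1, g2⟩ := h n hn P hPd hPC hsmall j
  refine ⟨g1, fun A _ x Z hZ => ?_⟩
  have g3 := g2 A x Z (fun u v hu hv => by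
    rw [hZ u v ((h4 u).2 hu) ((h4 v).2 hv), h3])
  have hpt2 : point x Z n w = fun o : Option (Fin k) => o.elim x
      fun i => Pool.Agent.X90.MZ.ex Z (Pool.Agent.TH507.WG.ar n (w i)) := by
    funext o
    cases o with
    | none => rfl
    | some i =>
      have hne : Pool.Agent.TH507.WG.ar n (w i) ≠ [] := by
        intro h0
        exact (hpat _ (hw i)).1 (List.map_eq_nil_iff.1 h0)
      show Z (args n (w i)) = Pool.Agent.X90.MZ.ex Z (Pool.Agent.TH507.WG.ar n (w i))
      rw [Pool.Agent.X90.MZ.ex_ne Z hne]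
      rfl
  rw [hpt2]
  exact g3

/-- **`1, π ^ 2, ζ(3)` over polynomials in multiple zeta values**, second part -/
theorem part_zeta (k D : ℕ) (w : Fin k → List (ℕ × ℕ)) (hw : ∀ i, Pattern (w i)) :
    ∃ B C : ℝ, 1 < B ∧ 1 < C ∧ ∃ n0 : ℕ, ∀ n : ℕ, n0 ≤ n →
      ∀ P : Fin 3 → MvPolynomial (Fin k) ℤ, (∀ j, (P j).totalDegree ≤ D) →
      (∀ j e, |(((P j).coeff e : ℤ) : ℝ)| ≤ C ^ n) →
      |MvPolynomial.aeval (fun i => mzv (args n (w i))) (P 0) +
        Real.pi ^ 2 * MvPolynomial.aeval (fun i => mzv (args n (w i))) (P 1) +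
        (∑' m : ℕ, 1 / ((m : ℝ) + 1) ^ 3) *
          MvPolynomial.aeval (fun i => mzv (args n (w i))) (P 2)| ≤ (B ^ n)⁻¹ →
      ∀ j, MvPolynomial.aeval (fun i => mzv (args n (w i))) (P j) = 0 ∧
        ∀ (A : Type) [CommRing A] (Z : List ℕ → A), HasStuffleProduct Z →
          MvPolynomial.aeval (fun i => Z (args n (w i))) (P j) = 0 := by
  obtain ⟨B, C, hB, hC, n0, h⟩ := Pool.Agent.X90.MZ.fam_theta _ Pool.Agent.Helper90.ZP.LM_three k D w
    (fun i => (pattern_ok _ (hw i)).2)
  have hpt : ∀ n, (fun i => mzv (args n (w i))) = fun i : Fin k =>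
      Pool.Agent.TH507.WD.mz (Pool.Agent.TH507.WG.ar n (w i)) := by
    intro n
    funext i
    exact mzv_eq _
  refine ⟨B, C, hB, hC, n0, fun n hn P hPd hPC hsmall => ?_⟩
  simp only [hpt] at hsmall ⊢
  intro j
  obtain ⟨g1, g2⟩ := h n hn P hPd hPC (by
    rw [Fin.sum_univ_three]
    simp only [Pool.Agent.Helper90.ZP.th3, Matrix.cons_val_zero, Matrix.cons_val_one,
      Matrix.cons_val_two, Matrix.head_cons, Matrix.tail_cons, one_mul]
    exact hsmall) j
  refine ⟨g1, fun A _ Z hZ => ?_⟩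
  have g3 := g2 A Z (fun u v hu hv => by
    rw [hZ u v ((adm_iff u).2 hu) ((adm_iff v).2 hv), stuffles_eq])
  have hpt2 : (fun i => Z (args n (w i))) = fun i : Fin k =>
      Pool.Agent.X90.MZ.ex Z (Pool.Agent.TH507.WG.ar n (w i)) := by
    funext i
    have hne : Pool.Agent.TH507.WG.ar n (w i) ≠ [] := by
      intro h0
      exact (pattern_ok _ (hw i)).1 (List.map_eq_nil_iff.1 h0)
    show Z (args n (w i)) = Pool.Agent.X90.MZ.ex Z (Pool.Agent.TH507.WG.ar n (w i))
    rw [Pool.Agent.X90.MZ.ex_ne Z hne]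
    rfl
  rw [hpt2]
  exact g3

/-- **`ζ(3)`, `π` and multiple zeta values.** Let `w_1, …, w_k` be patterns and `D` a natural number.
(1) Let `β_1, …, β_l` be real algebraic numbers, linearly independent over `ℚ`. There are `B, C > 1` and `n0` such that
for all `n ≥ n0` and all integer polynomials `P_1, …, P_l` in `k + 1` variables of total degree at most `D` with
coefficients of absolute value at most `C ^ n`: if `|∑ β_j P_j(π, ζ(w_1(n)), …, ζ(w_k(n)))| ≤ B ^ (-n)`, then for all `j`
`P_j(π, ζ(w_1(n)), …, ζ(w_k(n))) = 0`, and `P_j(x, Z(w_1(n)), …, Z(w_k(n))) = 0` for all commutative rings `A`, all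
`x ∈ A` and all functions `Z` from the indices to `A` that have the stuffle product.
(2) There are `B, C > 1` and `n0` such that for all `n ≥ n0` and all integer polynomials `P_0, P_1, P_2` in `k` variables
of total degree at most `D` with coefficients of absolute value at most `C ^ n`: if
`|P_0(z) + π ^ 2 P_1(z) + ζ(3) P_2(z)| ≤ B ^ (-n)` for `z = (ζ(w_1(n)), …, ζ(w_k(n)))`, then `P_j(z) = 0` for all `j`,
and `P_j(Z(w_1(n)), …, Z(w_k(n))) = 0` for all `A` and `Z` as in (1). -/
theorem result (k D : ℕ) (w : Fin k → List (ℕ × ℕ)) (hw : ∀ i, Pattern (w i)) :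
    (∀ (l : ℕ) (β : Fin l → ℝ), (∀ j, IsAlgebraic ℚ (β j)) → LinearIndependent ℚ β →
      ∃ B C : ℝ, 1 < B ∧ 1 < C ∧ ∃ n0 : ℕ, ∀ n : ℕ, n0 ≤ n →
        ∀ P : Fin l → MvPolynomial (Option (Fin k)) ℤ, (∀ j, (P j).totalDegree ≤ D) →
        (∀ j e, |(((P j).coeff e : ℤ) : ℝ)| ≤ C ^ n) →
        |∑ j, β j * MvPolynomial.aeval (point Real.pi mzv n w) (P j)| ≤ (B ^ n)⁻¹ →
        ∀ j, MvPolynomial.aeval (point Real.pi mzv n w) (P j) = 0 ∧
          ∀ (A : Type) [CommRing A] (x : A) (Z : List ℕ → A), HasStuffleProduct Z →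
            MvPolynomial.aeval (point x Z n w) (P j) = 0) ∧
    (∃ B C : ℝ, 1 < B ∧ 1 < C ∧ ∃ n0 : ℕ, ∀ n : ℕ, n0 ≤ n →
      ∀ P : Fin 3 → MvPolynomial (Fin k) ℤ, (∀ j, (P j).totalDegree ≤ D) →
      (∀ j e, |(((P j).coeff e : ℤ) : ℝ)| ≤ C ^ n) →
      |MvPolynomial.aeval (fun i => mzv (args n (w i))) (P 0) +
        Real.pi ^ 2 * MvPolynomial.aeval (fun i => mzv (args n (w i))) (P 1) +
        (∑' m : ℕ, 1 / ((m : ℝ) + 1) ^ 3) *
          MvPolynomial.aeval (fun i => mzv (args n (w i))) (P 2)| ≤ (B ^ n)⁻¹ →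
      ∀ j, MvPolynomial.aeval (fun i => mzv (args n (w i))) (P j) = 0 ∧
        ∀ (A : Type) [CommRing A] (Z : List ℕ → A), HasStuffleProduct Z →
          MvPolynomial.aeval (fun i => Z (args n (w i))) (P j) = 0) :=
  ⟨fun _ β hβ hli => part_pi β hβ hli k D w hw, part_zeta k D w hw⟩

end Pool.Agent.Results.MP_48b3e2_nt.PiAndMultipleZetaValues
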