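import Mathlib
import Pool.Agent.X90.DC.Zth

/-!
# MP_48b3e2_nt: `ζ(3)` is transcendental if and only if almost all relations are stuffle relations

Patterns are indices whose entries are fixed numbers or linear forms `b + u_1 s_1 + ⋯ + u_k s_k` in variables, for example
`(3)`, `(s_1, 3)`, `(3, s_1, s_1 + s_2)`, `(2, 1, s_2 + 4, 3)`. The fixed part of a pattern consists of the fixed entries in
front of the first entry that depends on the variables.

1. Let `x_1, …, x_t` be arbitrary complex numbers and `w_1, …, w_r` patterns. For large `N` and all but `K N ^ (k - 1)` of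
   the tuples `s ∈ [N, κ N] ^ k`, each relation `P(x, ζ(w_1(s)), …, ζ(w_r(s))) = 0` with an integer polynomial of degree at
   most `D` and coefficients of absolute value at most `C ^ N` is a consequence of the stuffle product and of the
   relations between the `x_j` and the values `ζ(p)` at initial segments `p` of the fixed parts. Here `C` is arbitrary
   and `K` does not depend on `C` and `x`.
2. `ζ(3)` is transcendental if and only if for all patterns whose fixed part is empty or `(3)`, almost all relations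
   `f(ζ(w_1(s)), …, ζ(w_r(s))) = 0` (in the sense of 1.) are consequences of the stuffle product alone.
3. `ζ(3)` is transcendental if and only if for almost all tuples `s` (up to `K N ^ (k - 1)` of them in `[N, κ N] ^ k`) there
   is no relation of degree at most `D` and height at most `C ^ N` between `ζ(3), ζ(s_1), …, ζ(s_k)`, for all `D` and `C`.

Proof (`Pool/Agent/X90/DC`): the values with a fixed part are polynomials in values at initial segments of the fixed part
and values without a fixed part; the constants are replaced by a `ℚ`-basis of the space spanned by their monomials and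
the elements of this basis are eliminated one by one with the stuffle product at several tuples in general position (a
unique factorization property of stuffle products of words that start with letters of separate alphabets). Relations with
rational coefficients are trivial by `Pool.Agent.Y760.ZF.mainW` (helper760).
-/

set_option autoImplicit false

namespace Pool.Agent.Results.MP_48b3e2_nt.TranscendenceEquivalences

/-- `trunc [s_1, ..., s_r] m` is the sum of `∏ k_i ^ (-s_i)` over `m > k_1 > ... > k_r ≥ 1` -/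
noncomputable def trunc : List ℕ → ℕ → ℝ
  | [], _ => 1
  | s :: l, m => ∑ j ∈ Finset.Ico 1 m, trunc l j / (j : ℝ) ^ s

/-- the multiple zeta value `ζ(s_1, ..., s_r)`, `s_1` belongs to the largest variable -/
noncomputable def mzv : List ℕ → ℝ
  | [] => 1
  | s :: l => ∑' k : ℕ, trunc l (k + 1) / ((k + 1 : ℕ) : ℝ) ^ s

/-- admissible indices: `(s_1, ..., s_r)` with `r ≥ 1`, `s_1 ≥ 2` and all `s_i ≥ 1` -/
def AdmissibleIndex : List ℕ → Prop
  | [] => False
  | s :: l => 2 ≤ s ∧ ∀ t ∈ l, 1 ≤ t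

/-- the list of the indices in the stuffle (series) product of two indices -/
def stuffles : List ℕ → List ℕ → List (List ℕ)
  | [], l => [l]
  | i :: k, [] => [i :: k]
  | i :: k, j :: l => (stuffles k (j :: l)).map (i :: ·) ++ (stuffles (i :: k) l).map (j :: ·) ++
      (stuffles k l).map ((i + j) :: ·)
termination_by k l => k.length + l.length

/-- `Z` has the stuffle product: `Z(k) Z(l) = ∑ Z(m)` over the indices `m` of the stuffle product
of `k` and `l`, for all admissible indices `k` and `l` -/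
def HasStuffleProduct {A : Type} [CommRing A] (Z : List ℕ → A) : Prop :=
  ∀ k l : List ℕ, AdmissibleIndex k → AdmissibleIndex l →
    Z k * Z l = ((stuffles k l).map Z).sum

/-- a pattern in the variables `s_1, …, s_k`: a nonempty list of letters `(b, u)`, different from
`(0, 0)`, the first letter is also different from `(1, 0)` -/
def Pattern {k : ℕ} (w : List (ℕ × (Fin k → ℕ))) : Prop :=
  w ≠ [] ∧ (∀ u ∈ w.head?, u.2 ≠ 0 ∨ 2 ≤ u.1) ∧ ∀ u ∈ w, u.2 ≠ 0 ∨ 1 ≤ u.1

/-- the index of a pattern: the letter `(b, u)` becomes `b + ∑ u_j s_j` -/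
def index {k : ℕ} (s : Fin k → ℕ) (w : List (ℕ × (Fin k → ℕ))) : List ℕ :=
  w.map fun u => u.1 + ∑ j, u.2 j * s j

/-- the list of the numbers `b` of the letters `(b, 0)` in front of the first letter `(b, u)` with
`u ≠ 0` -/
def fixedPart {k : ℕ} : List (ℕ × (Fin k → ℕ)) → List ℕ
  | [] => []
  | u :: w => open Classical in if u.2 = 0 then u.1 :: fixedPart w else []

/-- `y` and `Z` have the relations of `x` and the fixed parts of `w`: for all integer polynomials
`Q` in variables for the `x_j` and for the nonempty initial segments `p` of the fixed parts of the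
`w_i`, if `Q(x, (ζ(p))_p) = 0`, then `Q(y, (Z(p))_p) = 0` -/
def HasRelations {t k r : ℕ} (x : Fin t → ℂ) (w : Fin r → List (ℕ × (Fin k → ℕ)))
    {A : Type} [CommRing A] (y : Fin t → A) (Z : List ℕ → A) : Prop :=
  ∀ Q : MvPolynomial (Fin t ⊕ {p : List ℕ // p ≠ [] ∧ ∃ i, p <+: fixedPart (w i)}) ℤ,
    MvPolynomial.aeval (Sum.elim x fun p => ((mzv p.1 : ℝ) : ℂ)) Q = 0 →
    MvPolynomial.aeval (Sum.elim y fun p => Z p.1) Q = 0

/-- there are an integer polynomial `P` of total degree at most `D` with coefficients of absolute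
value at most `H` and `y ∈ A ^ t`, `Z : indices → A` in a commutative `ℚ`-algebra `A`, with the
stuffle product and the relations of `x` and the fixed parts of `w`, such that
`P(x, ζ(w_1(s)), …, ζ(w_r(s))) = 0` and `P(y, Z(w_1(s)), …, Z(w_r(s))) ≠ 0` -/
def Exceptional {t k r : ℕ} (D : ℕ) (H : ℝ) (x : Fin t → ℂ) (w : Fin r → List (ℕ × (Fin k → ℕ)))
    (s : Fin k → ℕ) : Prop :=
  ∃ P : MvPolynomial (Fin t ⊕ Fin r) ℤ, P.totalDegree ≤ D ∧
    (∀ m, |((P.coeff m : ℤ) : ℝ)| ≤ H) ∧
    MvPolynomial.aeval (Sum.elim x fun i => ((mzv (index s (w i)) : ℝ) : ℂ)) P = 0 ∧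
    ∃ (A : Type) (_ : CommRing A) (_ : Algebra ℚ A) (y : Fin t → A) (Z : List ℕ → A),
      HasStuffleProduct Z ∧ HasRelations x w y Z ∧
      MvPolynomial.aeval (Sum.elim y fun i => Z (index s (w i))) P ≠ 0

/-- there are an integer polynomial `f` of total degree at most `D` with coefficients of absolute
value at most `H` and a function `Z` from the indices to a commutative `ℚ`-algebra with the stuffle
product, such that `f(ζ(w_1(s)), …, ζ(w_r(s))) = 0` and `f(Z(w_1(s)), …, Z(w_r(s))) ≠ 0` -/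
def StuffleExceptional {k r : ℕ} (D : ℕ) (H : ℝ) (w : Fin r → List (ℕ × (Fin k → ℕ)))
    (s : Fin k → ℕ) : Prop :=
  ∃ f : MvPolynomial (Fin r) ℤ, f.totalDegree ≤ D ∧ (∀ m, |((f.coeff m : ℤ) : ℝ)| ≤ H) ∧
    MvPolynomial.aeval (fun i => mzv (index s (w i))) f = 0 ∧
    ∃ (A : Type) (_ : CommRing A) (_ : Algebra ℚ A) (Z : List ℕ → A), HasStuffleProduct Z ∧
      MvPolynomial.aeval (fun i => Z (index s (w i))) f ≠ 0

/-- for large `N` at most `K N ^ (k - 1)` of the tuples `s ∈ [N, κ N] ^ k` have the property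
`E N s` -/
def Few {k : ℕ} (κ K : ℕ) (E : ℕ → (Fin k → ℕ) → Prop) : Prop :=
  ∃ N0 : ℕ, ∀ N : ℕ, N0 ≤ N →
    {s : Fin k → ℕ | (∀ j, N ≤ s j ∧ s j ≤ κ * N) ∧ E N s}.ncard ≤ K * N ^ (k - 1)

open Finset Pool.Agent.X90.DC
open Pool.Agent.X90.DB (Ad ix ex ex_ne)

theorem trunc_eq : ∀ l m, trunc l m = Pool.Agent.Y760.ZG.hr l m := by
  intro l
  induction l with
  | nil => intro m; rw [trunc, Pool.Agent.Y760.ZG.hr]
  | cons s l ih =>
    intro m
    rw [trunc, Pool.Agent.Y760.ZG.hr]
    exact Finset.sum_congr rfl fun j _ => by rw [ih]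

theorem mzv_eq : ∀ l, mzv l = Pool.Agent.Y760.ZG.mz l := by
  intro l
  cases l with
  | nil => rw [mzv, Pool.Agent.Y760.ZG.mz]
  | cons s l =>
    rw [mzv, Pool.Agent.Y760.ZG.mz]
    exact tsum_congr fun k => by rw [trunc_eq]

theorem stuffles_eq : ∀ u v, stuffles u v = Pool.Agent.Y760.ZF.sti u v := by
  intro u v
  induction u, v using Pool.Agent.Y760.ZF.sti.induct with
  | case1 v => rw [stuffles, Pool.Agent.Y760.ZF.sti]
  | case2 x u => rw [stuffles, Pool.Agent.Y760.ZF.sti]
  | case3 x u y v ih1 ih2 ih3 => rw [stuffles, Pool.Agent.Y760.ZF.sti, ih1, ih2, ih3]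

theorem adm_iff : ∀ u, AdmissibleIndex u ↔ Ad u := by
  intro u
  cases u <;> exact Iff.rfl

theorem fixedPart_eq {k : ℕ} : ∀ w : List (ℕ × (Fin k → ℕ)), fpx w = fixedPart w := by
  intro w
  induction w with
  | nil => rfl
  | cons u w ih =>
    rw [fixedPart, fpx, ih]

theorem has_stuffle {A : Type} [CommRing A] {Z : List ℕ → A} (h : HasStuffleProduct Z) :
    ∀ u v, Ad u → Ad v → Z u * Z v = ((Pool.Agent.Y760.ZF.sti u v).map Z).sum := by
  intro u v hu hv
  rw [h u v ((adm_iff u).2 hu) ((adm_iff v).2 hv), stuffles_eq]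

theorem aeval_cast {σ : Type} (z : σ → ℝ) (Q : MvPolynomial σ ℤ) :
    MvPolynomial.aeval (fun i => ((z i : ℝ) : ℂ)) Q = ((MvPolynomial.aeval z Q : ℝ) : ℂ) := by
  simp only [MvPolynomial.aeval_def, MvPolynomial.eval₂_eq, eq_intCast]
  push_cast
  rfl

theorem few_of {k κ : ℕ} {K : ℕ} {E : ℕ → (Fin k → ℕ) → Prop} (N0 : ℕ)
    (h : ∀ N : ℕ, N0 ≤ N → ∀ B : Finset (Fin k → ℕ),
      (∀ s ∈ B, (∀ j, N ≤ s j ∧ s j ≤ κ * N) ∧ E N s) → B.card ≤ K * N ^ (k - 1)) : Few κ K E := by
  refine ⟨N0, fun N hN => ?_⟩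
  have hfin : {s : Fin k → ℕ | (∀ j, N ≤ s j ∧ s j ≤ κ * N) ∧ E N s}.Finite := by
    refine (bx k κ N).finite_toSet.subset ?_
    rintro s ⟨hs, -⟩
    rw [Finset.mem_coe, mem_bx]
    exact hs
  rw [Set.ncard_eq_toFinset_card _ hfin]
  refine h N hN hfin.toFinset fun s hs => ?_
  rw [Set.Finite.mem_toFinset] at hs
  exact hs

/-- the sets in the definition of `Few` bound all finite sets -/
theorem few_card {k κ K : ℕ} {E : ℕ → (Fin k → ℕ) → Prop} (h : Few κ K E) :
    ∃ N0 : ℕ, ∀ N : ℕ, N0 ≤ N → ∀ B : Finset (Fin k → ℕ),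
      (∀ s ∈ B, (∀ j, N ≤ s j ∧ s j ≤ κ * N) ∧ E N s) → B.card ≤ K * N ^ (k - 1) := by
  obtain ⟨N0, h0⟩ := h
  refine ⟨N0, fun N hN B hB => le_trans ?_ (h0 N hN)⟩
  have hfin : {s : Fin k → ℕ | (∀ j, N ≤ s j ∧ s j ≤ κ * N) ∧ E N s}.Finite := by
    refine (bx k κ N).finite_toSet.subset ?_
    rintro s ⟨hs, -⟩
    rw [Finset.mem_coe, mem_bx]
    exact hs
  rw [← Set.ncard_coe_finset]
  exact Set.ncard_le_ncard (fun s hs => hB s hs) hfin

theorem part_one (t k r D κ : ℕ) (w : Fin r → List (ℕ × (Fin k → ℕ))) (hw : ∀ i, Pattern (w i)) :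
    ∃ K : ℕ, ∀ (C : ℝ) (x : Fin t → ℂ), Few κ K fun N s => Exceptional D (C ^ N) x w s := by
  classical
  obtain ⟨K, hK⟩ := gen2 t k r D w (fun i => (hw i).2)
    {p | p ≠ [] ∧ ∃ i, p <+: fixedPart (w i)} (fun i q hq hne => by
      rw [fixedPart_eq] at hq
      exact ⟨hne, i, hq⟩) κ
  refine ⟨K, fun C x => ?_⟩
  obtain ⟨N0, hN0⟩ := hK C x
  refine few_of N0 fun N hN B hB => hN0 N hN B fun s hs => ?_
  obtain ⟨hs, P, hPD, hPC, hP0, A, _, _, y, Z, hZ1, hZ2, hZ3⟩ := hB s hs
  refine ⟨hs, P, hPD, hPC, ?_, fun h => hZ3 ?_⟩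
  · simp only [mzv_eq] at hP0
    exact hP0
  · have h1 := h A y Z (fun Q hQ => by
      -- rename the variables
      let g : Fin t ⊕ {p : List ℕ // Ad p ∧ p ∈ {p | p ≠ [] ∧ ∃ i, p <+: fixedPart (w i)}} →
          Fin t ⊕ {p : List ℕ // p ≠ [] ∧ ∃ i, p <+: fixedPart (w i)} :=
        Sum.map id fun p => ⟨p.1, p.2.2⟩
      have h2 := hZ2 (MvPolynomial.rename g Q) (by
        rw [MvPolynomial.aeval_rename, ← hQ]
        congr 2
        funext i
        cases i with
        | inl j => rfl
        | inr p =>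
          show ((mzv p.1 : ℝ) : ℂ) = _
          rw [mzv_eq, Sum.elim_inr])
      rw [MvPolynomial.aeval_rename] at h2
      rw [← h2]
      congr 2
      funext i
      cases i <;> rfl) (has_stuffle hZ1)
    have h2 : (fun i => ex Z (ix s (w i))) = fun i => Z (index s (w i)) := by
      funext i
      refine ex_ne Z fun h0 => (hw i).1 ?_
      rw [ix, List.map_eq_nil_iff] at h0
      exact h0
    rw [h2] at h1
    exact h1

/-- the case of a transcendental `ζ(3)` -/
theorem rel_three (h : Transcendental ℤ (mzv [3])) {A : Type} [CommRing A] (x : Fin 0 → ℂ)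
    (y : Fin 0 → A) (Z : List ℕ → A) : Rel2 {[3]} x y Z := by
  intro Q hQ
  have hcomp : ∀ (B : Type) [CommRing B] (x : Fin 0 → B) (F : List ℕ → B), Polynomial.aeval (F [3])
      (MvPolynomial.aeval (fun _ : Fin 0 ⊕ {p : List ℕ // Ad p ∧ p ∈ ({[3]} : Set (List ℕ))} =>
        (Polynomial.X : Polynomial ℤ)) Q) =
      MvPolynomial.aeval (Sum.elim x fun p => F p.1) Q := by
    intro B _ x F
    rw [← AlgHom.comp_apply]
    congr 1
    refine MvPolynomial.algHom_ext fun i => ?_
    rw [AlgHom.comp_apply, MvPolynomial.aeval_X, MvPolynomial.aeval_X, Polynomial.aeval_X]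
    cases i with
    | inl j => exact j.elim0
    | inr p =>
      have : p.1 = [3] := p.2.2
      rw [Sum.elim_inr, this]
  rw [← hcomp A y Z]
  rw [← hcomp ℂ x fun p => ((Pool.Agent.Y760.ZG.mz p : ℝ) : ℂ)] at hQ
  have h1 : MvPolynomial.aeval
      (fun _ : Fin 0 ⊕ {p : List ℕ // Ad p ∧ p ∈ ({[3]} : Set (List ℕ))} =>
        (Polynomial.X : Polynomial ℤ)) Q = 0 := by
    by_contra h0
    refine h ⟨_, h0, ?_⟩
    have h2 := Polynomial.aeval_algebraMap_apply ℂ (mzv [3]) (MvPolynomial.aeval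
      (fun _ : Fin 0 ⊕ {p : List ℕ // Ad p ∧ p ∈ ({[3]} : Set (List ℕ))} =>
        (Polynomial.X : Polynomial ℤ)) Q)
    have h3 : algebraMap ℝ ℂ (mzv [3]) = ((Pool.Agent.Y760.ZG.mz [3] : ℝ) : ℂ) := by
      rw [mzv_eq]
      rfl
    rw [h3, hQ] at h2
    have h4 : Function.Injective (algebraMap ℝ ℂ) := (algebraMap ℝ ℂ).injective
    apply h4
    rw [← h2, map_zero]
  rw [h1, map_zero]

theorem stuffle_few (h : Transcendental ℤ (mzv [3])) (k r D κ : ℕ)
    (w : Fin r → List (ℕ × (Fin k → ℕ))) (hw : ∀ i, Pattern (w i))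
    (hf : ∀ i, fixedPart (w i) = [] ∨ fixedPart (w i) = [3]) :
    ∃ K : ℕ, ∀ C : ℝ, Few κ K fun N s => StuffleExceptional D (C ^ N) w s := by
  classical
  obtain ⟨K, hK⟩ := gen2 0 k r D w (fun i => (hw i).2) {[3]} (fun i q hq hne => by
      rw [fixedPart_eq] at hq
      rcases hf i with h0 | h0
      · rw [h0, List.prefix_nil] at hq
        exact absurd hq hne
      · rw [h0] at hq
        have h1 : q.length = 1 := by
          have := hq.length_le
          have := List.length_pos_iff.2 hne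
          simp only [List.length_cons, List.length_nil] at *
          omega
        exact hq.eq_of_length (by rw [h1]; rfl)) κ
  refine ⟨K, fun C => ?_⟩
  obtain ⟨N0, hN0⟩ := hK C (fun i => i.elim0)
  refine few_of N0 fun N hN B hB => hN0 N hN B fun s hs => ?_
  obtain ⟨hs, f, hfD, hfC, hf0, A, _, _, Z, hZ1, hZ3⟩ := hB s hs
  have hC0 : 0 ≤ C ^ N := (abs_nonneg _).trans (hfC 0)
  refine ⟨hs, MvPolynomial.rename Sum.inr f, (MvPolynomial.totalDegree_rename_le _ _).trans hfD,
    fun m => ?_, ?_, fun h' => hZ3 ?_⟩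
  · by_cases hm : ∃ u : Fin r →₀ ℕ, u.mapDomain Sum.inr = m ∧ f.coeff u ≠ 0
    · obtain ⟨u, rfl, -⟩ := hm
      rw [MvPolynomial.coeff_rename_mapDomain _ Sum.inr_injective]
      exact hfC u
    · rw [MvPolynomial.coeff_rename_eq_zero _ _ _ fun u hu => by
        by_contra h0
        exact hm ⟨u, hu, h0⟩]
      simpa using hC0
  · rw [MvPolynomial.aeval_rename, Sum.elim_comp_inr, aeval_cast]
    simp only [mzv_eq] at hf0
    rw [show (fun i => Pool.Agent.Y760.ZG.mz (ix s (w i))) =
      fun i => Pool.Agent.Y760.ZG.mz (index s (w i)) from rfl, hf0, Complex.ofReal_zero]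
  · have h1 := h' A (fun i => i.elim0) Z (rel_three h _ _ Z) (has_stuffle hZ1)
    rw [MvPolynomial.aeval_rename, Sum.elim_comp_inr] at h1
    have h2 : (fun i => ex Z (ix s (w i))) = fun i => Z (index s (w i)) := by
      funext i
      refine ex_ne Z fun h0 => (hw i).1 ?_
      rw [ix, List.map_eq_nil_iff] at h0
      exact h0
    rw [h2] at h1
    exact h1

theorem exists_family {k : ℕ} (s : Fin k → ℕ) (hs : Function.Injective s) (h1 : ∀ j, 1 ≤ s j)
    (c : Fin k → ℂ) : ∃ Z : List ℕ → ℂ, HasStuffleProduct Z ∧ ∀ j, Z [s j] = c j := by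
  obtain ⟨Z, hZ1, hZ2⟩ := exists_Z s hs h1 c
  exact ⟨Z, fun u v _ _ => by rw [hZ1, stuffles_eq], hZ2⟩

theorem part_two : Transcendental ℤ (mzv [3]) ↔ ∀ (k r D κ : ℕ)
    (w : Fin r → List (ℕ × (Fin k → ℕ))), (∀ i, Pattern (w i)) →
    (∀ i, fixedPart (w i) = [] ∨ fixedPart (w i) = [3]) →
    ∃ K : ℕ, ∀ C : ℝ, Few κ K fun N s => StuffleExceptional D (C ^ N) w s := by
  classical
  refine ⟨fun h k r D κ w hw hf => stuffle_few h k r D κ w hw hf, fun hall => ?_⟩
  by_contra halg
  rw [Transcendental, not_not] at halg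
  obtain ⟨q, hq0, hq⟩ := halg
  obtain ⟨f, hf0, ⟨H, hH1, hH⟩, hf⟩ := first_var (n := 0) q hq0
  obtain ⟨K, hK⟩ := hall 1 1 f.totalDegree 2 (fun _ => [(3, 0)])
    (fun i => ⟨List.cons_ne_nil _ _, by simp, by simp⟩)
    (fun i => Or.inr (by rw [fixedPart, if_pos rfl, fixedPart]))
  obtain ⟨N0, hN0⟩ := few_card (hK H)
  obtain ⟨N, hN, hN1, hlt⟩ := bx_large (k := 1) (κ := 2) le_rfl le_rfl K N0
  refine absurd (hN0 N hN (bx 1 2 N) fun s hs => ⟨mem_bx.1 hs, ?_⟩) (not_le.2 hlt)
  have hix : index s [((3 : ℕ), (0 : Fin 1 → ℕ))] = [3] := by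
    rw [index]
    simp
  refine ⟨f, le_rfl, fun m => (hH m).trans (le_self_pow₀ hH1 (by omega)), ?_, ?_⟩
  · rw [hf]
    simp only [hix]
    exact hq
  · obtain ⟨c, hc⟩ := exists_nonroot q hq0
    obtain ⟨Z, hZ1, hZ2⟩ := exists_family (fun _ : Fin 1 => 3) (fun _ _ _ => Subsingleton.elim _ _)
      (fun _ => by norm_num) (fun _ => c)
    refine ⟨ℂ, inferInstance, inferInstance, Z, hZ1, ?_⟩
    rw [hf]
    simp only [hix]
    rw [hZ2 0]
    exact hc

theorem part_three (k κ : ℕ) (hk : 1 ≤ k) (hκ : 2 ≤ κ) : Transcendental ℤ (mzv [3]) ↔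
    ∀ D : ℕ, ∃ K : ℕ, ∀ C : ℝ, Few κ K fun N (s : Fin k → ℕ) =>
      ∃ P : MvPolynomial (Fin (k + 1)) ℤ, P ≠ 0 ∧ P.totalDegree ≤ D ∧
        (∀ m, |((P.coeff m : ℤ) : ℝ)| ≤ C ^ N) ∧
        MvPolynomial.aeval (Fin.cons (mzv [3]) fun j => mzv [s j]) P = 0 := by
  classical
  constructor
  · intro h D
    set w : Fin (k + 1) → List (ℕ × (Fin k → ℕ)) :=
      Fin.cons [(3, 0)] fun j => [(0, Pi.single j 1)] with hw
    have hs1 : ∀ j : Fin k, (Pi.single j 1 : Fin k → ℕ) ≠ 0 := by
      intro j h0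
      have := congrFun h0 j
      simp at this
    obtain ⟨K, hK⟩ := stuffle_few h k (k + 1) D κ w (fun i => by
      refine Fin.cases ?_ (fun j => ?_) i
      · rw [hw, Fin.cons_zero]
        exact ⟨List.cons_ne_nil _ _, by simp, by simp⟩
      · rw [hw, Fin.cons_succ]
        refine ⟨List.cons_ne_nil _ _, fun u hu => ?_, fun u hu => ?_⟩
        · simp only [List.head?_cons, Option.mem_some_iff] at hu
          exact Or.inl (hu ▸ hs1 j)
        · rw [List.mem_singleton] at hu
          exact Or.inl (hu ▸ hs1 j)) (fun i => by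
      refine Fin.cases ?_ (fun j => ?_) i
      · rw [hw, Fin.cons_zero]
        exact Or.inr (by rw [fixedPart, if_pos rfl, fixedPart])
      · rw [hw, Fin.cons_succ]
        exact Or.inl (by rw [fixedPart, if_neg (hs1 j)]))
    have hix : ∀ (s : Fin k → ℕ) (F : List ℕ → ℝ), (fun i => F (index s (w i))) =
        Fin.cons (F [3]) fun j => F [s j] := by
      intro s F
      funext i
      refine Fin.cases ?_ (fun j => ?_) i
      · rw [hw, Fin.cons_zero, Fin.cons_zero, index]
        simp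
      · rw [hw, Fin.cons_succ, Fin.cons_succ, index]
        congr 1
        rw [List.map_cons, List.map_nil]
        simp [Pi.single_apply]
    have hixC : ∀ (s : Fin k → ℕ) (F : List ℕ → ℂ), (fun i => F (index s (w i))) =
        Fin.cons (F [3]) fun j => F [s j] := by
      intro s F
      funext i
      refine Fin.cases ?_ (fun j => ?_) i
      · rw [hw, Fin.cons_zero, Fin.cons_zero, index]
        simp
      · rw [hw, Fin.cons_succ, Fin.cons_succ, index]
        congr 1
        rw [List.map_cons, List.map_nil]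
        simp [Pi.single_apply]
    refine ⟨K + k * k * κ ^ (k - 1), fun C => ?_⟩
    obtain ⟨N0, hN0⟩ := few_card (hK C)
    refine few_of (N0 + 4) fun N hN B hB => ?_
    rw [← card_filter_add_card_filter_not (s := B) (fun s => Function.Injective s), add_mul]
    refine Nat.add_le_add (hN0 N (by omega) _ fun s hs => ?_)
      (card_noinj _ (fun s hs => ?_) (by omega))
    · rw [mem_filter] at hs
      obtain ⟨hsB, hinj⟩ := hs
      obtain ⟨hsN, P, hPne, hPD, hPC, hP0⟩ := hB s hsB
      refine ⟨hsN, P, hPD, hPC, ?_, ?_⟩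
      · rw [hix s mzv]
        exact hP0
      · obtain ⟨c, hc⟩ := exists_nonzero P hPne
        obtain ⟨Z, hZ1, hZ2⟩ := exists_family (Fin.cons 3 s : Fin (k + 1) → ℕ) (by
          rw [Fin.cons_injective_iff]
          refine ⟨?_, hinj⟩
          rintro ⟨j, hj⟩
          have := (hsN j).1
          omega) (fun j => by
          refine Fin.cases ?_ (fun j => ?_) j
          · rw [Fin.cons_zero]
            norm_num
          · rw [Fin.cons_succ]
            have := (hsN j).1
            omega) c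
        refine ⟨ℂ, inferInstance, inferInstance, Z, hZ1, ?_⟩
        rw [hixC s Z]
        have h3 : (Fin.cons (Z [3]) fun j => Z [s j] : Fin (k + 1) → ℂ) = c := by
          funext i
          rw [← hZ2 i]
          refine Fin.cases ?_ (fun j => ?_) i
          · rw [Fin.cons_zero, Fin.cons_zero]
          · rw [Fin.cons_succ, Fin.cons_succ]
        rw [h3]
        exact hc
    · rw [mem_filter] at hs
      exact ⟨mem_bx.2 (hB s hs.1).1, hs.2⟩
  · intro hall
    by_contra halg
    rw [Transcendental, not_not] at halg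
    obtain ⟨q, hq0, hq⟩ := halg
    obtain ⟨f, hf0, ⟨H, hH1, hH⟩, hf⟩ := first_var (n := k) q hq0
    obtain ⟨K, hK⟩ := hall f.totalDegree
    obtain ⟨N0, hN0⟩ := few_card (hK H)
    obtain ⟨N, hN, hN1, hlt⟩ := bx_large hk hκ K N0
    refine absurd (hN0 N hN (bx k κ N) fun s hs => ⟨mem_bx.1 hs, f, hf0, le_rfl, fun m =>
      (hH m).trans (le_self_pow₀ hH1 (by omega)), ?_⟩) (not_le.2 hlt)
    rw [hf, Fin.cons_zero]
    exact hq

/-- **Transcendence of `ζ(3)` and relations of multiple zeta values.**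
(1) For all patterns `w_1, …, w_r` in `k` variables and all `t`, `D`, `κ` there is `K` such that for all `C` and all
complex numbers `x_1, …, x_t`: for large `N` at most `K N ^ (k - 1)` of the tuples `s ∈ [N, κ N] ^ k` are exceptional for
relations of degree at most `D` and height at most `C ^ N` between `x_1, …, x_t, ζ(w_1(s)), …, ζ(w_r(s))`, where the
stuffle product and the relations between the `x_j` and the values at initial segments of fixed parts are allowed.
(2) `ζ(3)` is transcendental if and only if for all patterns with fixed part `()` or `(3)` the same holds for relations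
between `ζ(w_1(s)), …, ζ(w_r(s))` with the stuffle product alone.
(3) For `k ≥ 1` and `κ ≥ 2`, `ζ(3)` is transcendental if and only if for all `D` there is `K` such that for all `C` and
large `N` at most `K N ^ (k - 1)` of the tuples `s ∈ [N, κ N] ^ k` have a nonzero integer polynomial `P` of degree at most
`D` with coefficients of absolute value at most `C ^ N` and `P(ζ(3), ζ(s_1), …, ζ(s_k)) = 0`. -/
theorem result :
    (∀ (t k r D κ : ℕ) (w : Fin r → List (ℕ × (Fin k → ℕ))), (∀ i, Pattern (w i)) →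
      ∃ K : ℕ, ∀ (C : ℝ) (x : Fin t → ℂ), Few κ K fun N s => Exceptional D (C ^ N) x w s) ∧
    (Transcendental ℤ (mzv [3]) ↔ ∀ (k r D κ : ℕ) (w : Fin r → List (ℕ × (Fin k → ℕ))),
      (∀ i, Pattern (w i)) → (∀ i, fixedPart (w i) = [] ∨ fixedPart (w i) = [3]) →
      ∃ K : ℕ, ∀ C : ℝ, Few κ K fun N s => StuffleExceptional D (C ^ N) w s) ∧
    (∀ k κ : ℕ, 1 ≤ k → 2 ≤ κ → (Transcendental ℤ (mzv [3]) ↔
      ∀ D : ℕ, ∃ K : ℕ, ∀ C : ℝ, Few κ K fun N (s : Fin k → ℕ) =>
        ∃ P : MvPolynomial (Fin (k + 1)) ℤ, P ≠ 0 ∧ P.totalDegree ≤ D ∧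
          (∀ m, |((P.coeff m : ℤ) : ℝ)| ≤ C ^ N) ∧
          MvPolynomial.aeval (Fin.cons (mzv [3]) fun j => mzv [s j]) P = 0)) :=
  ⟨part_one, part_two, part_three⟩

end Pool.Agent.Results.MP_48b3e2_nt.TranscendenceEquivalences
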